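import Pool.Agent.V5helper56.GR.Cyc
import Pool.Agent.Results.MP_ca71b5_nt.FiniteTowers

/-!
# Greenberg's conjecture for `p`-extensions in which `p` does not split: uniform bounds

Let `p` be a prime, `K` a number field (totally complex if `p = 2`) with one prime above `p` whose class
number is prime to `p`, and `T` a finite set of primes of `K` not above `p` which are independent modulo
`p`-th powers of `p`-units (`Good p K T`), for example `K = ℚ`, `p ≠ 2`, `T = {l}`, `p` not a `p`-th power
modulo `l`. Let `F` be a finite Galois extension of `K` of `p`-power degree unramified outside `p` and `T`,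
and let `E` be any field between `K` and `F`; if `K` is totally real, so is `E`.

Then for all cyclic extensions `K'` of `K` of `p`-power degree unramified outside `p`, in particular for
all layers `K' = K_n` of the cyclotomic `ℤ_p`-extension (or any other `ℤ_p`-extension) of `K`, the Galois
group of the maximal `p`-extension of `E K'` which is unramified at all finite primes is abelian and has
at most `[F : K] ^ (2 (|T| + 1))` elements. So the exponent of `p` in the class number of `E K_n` is bounded
for `n → ∞`, and the bound depends on `[F : K]` and `|T|` only.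

Proof. Let `L` be an unramified Galois extension of `E K'` of `p`-power degree. The decomposition group `D`
at the prime above `p` is dense in the relevant quotients of the Galois group of `K`; as the commutators of
`D` are in the inertia group `I`, the field `L` is normal over each `E₁` with `E ⊆ E₁ ⊆ E K'` and `E₁` in
`F K'` as below, and if `E K'` is totally ramified over `E₁`, then the Galois group of `L` over `E₁` is the product of the image of `I` and of
`Gal(L/E K')`, and the fixed field of `I` is an unramified extension of `E₁` of the same degree. For `E₁` we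
take the compositum of `E` and of the subextension of degree (at most) `[F : K]` of `K'`; it is contained in
an extension like `F` of degree at most `[F : K] ^ 2`, and the bound of `FiniteTowers` is applied to it.
-/

set_option autoImplicit false

namespace Pool.Agent.Results.MP_1246c0_nt.UniformBounds

open NumberField Pool.Agent.Results.MP_ca71b5_nt.FiniteTowers

/-- `K'` is a finite cyclic extension of `K` whose degree is a power of `p`, which is unramified at all
finite primes not above `p`. -/
structure CyclicP (p : ℕ) (K K' : Ext) : Prop where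
  finite : FiniteDimensional ℚ K'
  le : K ≤ K'
  cyclic : ∃ (n : ℕ) (χ : GalOf K →* Multiplicative (ZMod (p ^ n))), Function.Surjective χ ∧
    ∀ g : GalOf K, χ g = 1 ↔ (g : AbsGal) ∈ GalOf K'
  unr : ∀ Q : Ideal ZBar, Q.IsMaximal → (p : ZBar) ∉ Q → ∀ σ ∈ Inertia Q, σ ∈ GalOf K → σ ∈ GalOf K'

theorem main {p : ℕ} [hp : Fact p.Prime] {K : Ext} {T : Set (Ideal (RingOf K))} (hG : Good p K T)
    {E F K' : Ext} (hF : POutside p K T F) (hKE : K ≤ E) (hEF : E ≤ F) (hK' : CyclicP p K K') :
    TowerBounded p (E ⊔ K') ((degree K F * degree K F) ^ (Nat.card T + 1)) := by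
  haveI := hG.finite
  haveI := hG.nf
  have hcls : ¬ p ∣ classNumber K := by rw [← card_class]; exact hG.cls
  obtain ⟨P, hP, hpP⟩ := exists_prime p
  intro L hL
  haveI := hL.1.finite
  haveI := hK'.finite
  haveI := hF.1.finite
  obtain ⟨n, χ, hχs, hχ⟩ := hK'.cyclic
  haveI : NeZero (p ^ n) := ⟨pow_ne_zero n hp.out.ne_zero⟩
  have e : GalOf (E ⊔ K') = GalOf E ⊓ GalOf K' := IntermediateField.fixingSubgroup_sup
  have h0 : (GalOf F).relIndex (GalOf K) ≠ 0 := by
    have h1 : (GalOf F).index ≠ 0 := by
      haveI : Finite (AbsGal ⧸ GalOf F) :=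
        Subgroup.quotient_finite_of_isOpen (GalOf F) (IntermediateField.fixingSubgroup_isOpen F)
      rw [Subgroup.index]
      exact Nat.card_pos.ne'
    intro h
    have h2 := Subgroup.relIndex_mul_index (show GalOf F ≤ GalOf K from IntermediateField.fixingSubgroup_le hF.1.le)
    rw [h, zero_mul] at h2
    exact h1 h2.symm
  have a1 : GalOf L ≤ GalOf E ⊓ GalOf K' := by rw [← e]; exact IntermediateField.fixingSubgroup_le hL.1.le
  have a2 : ∀ g ∈ GalOf E ⊓ GalOf K', ∀ σ ∈ GalOf L, g * σ * g⁻¹ ∈ GalOf L := by rw [← e]; exact hL.1.normal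
  have a3 : ∀ g ∈ GalOf E ⊓ GalOf K', ∃ m : ℕ, g ^ p ^ m ∈ GalOf L := by rw [← e]; exact hL.1.power
  have a4 : ∀ Q : Ideal ZBar, Q.IsMaximal → ∀ σ ∈ Inertia Q, σ ∈ GalOf E ⊓ GalOf K' → σ ∈ GalOf L := by
    rw [← e]; exact hL.2
  have key : (GalOf L).relIndex (GalOf E ⊓ GalOf K') ≠ 0 ∧
      (GalOf L).relIndex (GalOf E ⊓ GalOf K') ≤ (degree K F * degree K F) ^ (Nat.card T + 1) ∧
      ∀ a ∈ GalOf E ⊓ GalOf K', ∀ b ∈ GalOf E ⊓ GalOf K', a * b * a⁻¹ * b⁻¹ ∈ GalOf L :=
    Pool.Agent.V5helper56.GR.cyc (V := GalOf L) Pool.Agent.V5helper56.DU.chr K hG.infinity hG.one hcls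
    hG.fin hG.tame (pext hF) (IntermediateField.fixingSubgroup_le hEF) (IntermediateField.fixingSubgroup_le hKE) h0
    (IntermediateField.fixingSubgroup_isOpen K') (IntermediateField.fixingSubgroup_le hK'.le) hK'.unr
    (Multiplicative (ZMod (p ^ n))) (fun a => ⟨n, by
      have h2 : Nat.card (Multiplicative (ZMod (p ^ n))) = p ^ n :=
        (Nat.card_congr (Multiplicative.toAdd (α := ZMod (p ^ n)))).trans (Nat.card_zmod _)
      have h3 := pow_card_eq_one' (G := Multiplicative (ZMod (p ^ n))) (x := a)
      rwa [h2] at h3⟩) χ hχs hχ a1 (IntermediateField.fixingSubgroup_isOpen L) a2 a3 a4 hP hpP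
  rw [← e] at key
  exact key

/-- **Uniform bounds.** -/
theorem result (p : ℕ) [Fact p.Prime] :
    (∀ (K : Ext) (T : Set (Ideal (RingOf K))), Good p K T → ∀ E F : Ext, POutside p K T F → K ≤ E → E ≤ F →
      ∀ K' : Ext, CyclicP p K K' →
        TowerBounded p (E ⊔ K') ((degree K F * degree K F) ^ (Nat.card T + 1))) ∧
    RationalsGood p ∧ PrimitiveRootsGood p :=
  ⟨fun _ _ hG _ _ hF hKE hEF _ hK' => main hG hF hKE hEF hK', rationalsGood p, primitiveRootsGood p⟩

end Pool.Agent.Results.MP_1246c0_nt.UniformBounds
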